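import Pool.Agent.W5h94.RZ.Main

set_option autoImplicit false

/-!
# Symmetric determinants are real zero
-/

namespace Pool.Agent.W5h94.RZ

open Matrix
open scoped ComplexOrder

theorem det_real {k : ℕ} (M : Matrix (Fin k) (Fin k) ℝ) (hM : M.IsSymm) (c : ℂ)
    (h : (1 + c • M.map (fun x : ℝ => (x : ℂ))).det = 0) : c.im = 0 := by
  obtain ⟨v, hv, hv0⟩ := exists_mulVec_eq_zero_iff.2 h
  set N : Matrix (Fin k) (Fin k) ℂ := M.map (fun x : ℝ => (x : ℂ)) with hN
  have hNh : Nᴴ = N := by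
    rw [hN]
    ext i j
    simp only [conjTranspose_apply, map_apply]
    rw [← hM.apply i j]
    simp
  have h1 : star v ⬝ᵥ v + c * (star v ⬝ᵥ (N *ᵥ v)) = 0 := by
    have h2 : star v ⬝ᵥ ((1 + c • N) *ᵥ v) = 0 := by rw [hv0]; simp
    rw [add_mulVec, one_mulVec, smul_mulVec, dotProduct_add, dotProduct_smul, smul_eq_mul] at h2
    exact h2
  have h3 : (star v ⬝ᵥ (N *ᵥ v)).im = 0 := by
    have h4 : N.IsHermitian := hNh
    exact h4.im_star_dotProduct_mulVec_self v
  have h5 : (star v ⬝ᵥ v).im = 0 ∧ 0 < (star v ⬝ᵥ v).re := by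
    have h6 : 0 < star v ⬝ᵥ v := dotProduct_star_self_pos_iff.2 hv
    rw [Complex.lt_def] at h6
    simp only [Complex.zero_re, Complex.zero_im] at h6
    exact ⟨h6.2.symm, h6.1⟩
  have e1 := congrArg Complex.im h1
  have e2 := congrArg Complex.re h1
  simp only [Complex.add_im, Complex.mul_im, h3, mul_zero, h5.1, zero_add, Complex.zero_im] at e1
  simp only [Complex.add_re, Complex.mul_re, h3, mul_zero, sub_zero, Complex.zero_re] at e2
  rcases mul_eq_zero.1 e1 with h7 | h7
  · exact h7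
  · rw [h7, mul_zero, add_zero] at e2
    exact absurd e2 h5.2.ne'

end Pool.Agent.W5h94.RZ
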