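import Mathlib

set_option autoImplicit false

/-!
# Real rooted polynomials: product representation and two estimates
-/

namespace Pool.Agent.W5h94.RZ

open Polynomial

/-- All complex roots of `g` are real. -/
def RealRooted (g : ℝ[X]) : Prop := ∀ c : ℂ, aeval c g = 0 → c.im = 0

theorem RealRooted.splits {g : ℝ[X]} (h : RealRooted g) : g.Splits := by
  apply Splits.of_splits_map (algebraMap ℝ ℂ) (IsAlgClosed.splits _)
  intro a ha
  have h1 : aeval a g = 0 := by
    rw [mem_roots'] at ha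
    have := ha.2
    rw [IsRoot.def, eval_map_algebraMap] at this
    exact this
  have h2 := h a h1
  refine ⟨a.re, ?_⟩
  apply Complex.ext <;> simp [h2]

/-- The product representation of a real rooted polynomial with constant coefficient `1`. -/
theorem RealRooted.exists_prod {g : ℝ[X]} (h : RealRooted g) (h0 : g.coeff 0 = 1) :
    ∃ s : Multiset ℝ, g = (s.map fun m => 1 - C m * X).prod ∧ s.card = g.natDegree := by
  have hs := h.splits
  have e := hs.eq_prod_roots
  have hg : g ≠ 0 := by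
    rintro rfl
    simp at h0
  have hr : ∀ ρ ∈ g.roots, ρ ≠ 0 := by
    intro ρ hρ h1
    rw [mem_roots'] at hρ
    have h2 := hρ.2
    rw [h1, IsRoot.def, ← coeff_zero_eq_eval_zero, h0] at h2
    exact one_ne_zero h2
  refine ⟨g.roots.map (fun ρ => ρ⁻¹), ?_, ?_⟩
  · have h1 : (g.roots.map (fun ρ => ρ⁻¹)).map (fun m => (1 - C m * X : ℝ[X])) =
        g.roots.map (fun ρ => C (-ρ⁻¹) * (X - C ρ)) := by
      rw [Multiset.map_map]
      apply Multiset.map_congr rfl
      intro ρ hρ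
      have := hr ρ hρ
      simp only [Function.comp_apply]
      rw [mul_sub, ← C_mul, neg_mul, inv_mul_cancel₀ this]
      simp only [C_neg, C_1]
      ring
    rw [h1, Multiset.prod_map_mul]
    have h2 : (g.roots.map (fun ρ => (C (-ρ⁻¹) : ℝ[X]))).prod = C g.leadingCoeff := by
      have h3 : (g.roots.map (fun ρ => (C (-ρ⁻¹) : ℝ[X]))).prod =
          C ((g.roots.map (fun ρ => (-ρ⁻¹))).prod) := by
        rw [map_multiset_prod C, Multiset.map_map]
        rfl
      rw [h3]
      congr 1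
      have h4 : (g.roots.map (fun ρ => (-ρ⁻¹))).prod * (g.roots.map (fun ρ => (-ρ))).prod = 1 := by
        rw [← Multiset.prod_map_mul]
        apply Multiset.prod_eq_one
        intro x hx
        rw [Multiset.mem_map] at hx
        obtain ⟨ρ, hρ, rfl⟩ := hx
        have := hr ρ hρ
        field_simp
      have h5 : g.leadingCoeff * (g.roots.map (fun ρ => (-ρ))).prod = 1 := by
        have := hs.eval_eq_prod_roots 0
        rw [← coeff_zero_eq_eval_zero, h0] at this
        rw [this]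
        simp
      have h6 : (g.roots.map (fun ρ => (-ρ))).prod ≠ 0 := by
        intro h7
        rw [h7, mul_zero] at h5
        exact zero_ne_one h5
      exact mul_right_cancel₀ h6 (h4.trans h5.symm)
    rw [h2]
    exact e
  · rw [Multiset.card_map, ← hs.natDegree_eq_card_roots]

/-- the sum of the squares -/
noncomputable def S2 (s : Multiset ℝ) : ℝ := (s.map fun m => m ^ 2).sum
/-- the sum of the fourth powers -/
noncomputable def S4 (s : Multiset ℝ) : ℝ := (s.map fun m => m ^ 4).sum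

/-- the polynomial with reciprocal roots `s` -/
noncomputable def Gs (s : Multiset ℝ) : ℝ[X] := (s.map fun m => 1 - C m * X).prod

theorem Gs_cons (m : ℝ) (s : Multiset ℝ) : Gs (m ::ₘ s) = (1 - C m * X) * Gs s := by
  simp [Gs]

theorem Gs_coeff_zero (s : Multiset ℝ) : (Gs s).coeff 0 = 1 := by
  induction s using Multiset.induction with
  | empty => simp [Gs]
  | cons m s ih => rw [Gs_cons, mul_coeff_zero, ih]; simp

theorem Gs_cons_coeff (m : ℝ) (s : Multiset ℝ) (k : ℕ) :
    (Gs (m ::ₘ s)).coeff (k + 1) = (Gs s).coeff (k + 1) - m * (Gs s).coeff k := by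
  rw [Gs_cons, sub_mul, one_mul, coeff_sub, mul_assoc, coeff_C_mul, coeff_X_mul]

theorem S2_eq (s : Multiset ℝ) : S2 s = (Gs s).coeff 1 ^ 2 - 2 * (Gs s).coeff 2 := by
  induction s using Multiset.induction with
  | empty => simp [Gs, S2, coeff_one]
  | cons m s ih =>
    have h1 := Gs_cons_coeff m s 0
    have h2 := Gs_cons_coeff m s 1
    rw [zero_add] at h1
    rw [h1, h2, Gs_coeff_zero]
    have h3 : S2 (m ::ₘ s) = m ^ 2 + S2 s := by simp [S2]
    rw [h3, ih]
    ring

theorem S4_eq (s : Multiset ℝ) : S4 s = (Gs s).coeff 1 ^ 4 -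
    4 * (Gs s).coeff 1 ^ 2 * (Gs s).coeff 2 + 2 * (Gs s).coeff 2 ^ 2 +
    4 * (Gs s).coeff 1 * (Gs s).coeff 3 - 4 * (Gs s).coeff 4 := by
  induction s using Multiset.induction with
  | empty => simp [Gs, S4, coeff_one]
  | cons m s ih =>
    have h1 := Gs_cons_coeff m s 0
    have h2 := Gs_cons_coeff m s 1
    have h3 := Gs_cons_coeff m s 2
    have h4 := Gs_cons_coeff m s 3
    rw [zero_add] at h1
    rw [h1, h2, h3, h4, Gs_coeff_zero]
    have h5 : S4 (m ::ₘ s) = m ^ 4 + S4 s := by simp [S4]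
    rw [h5, ih]
    ring

theorem S2_nonneg (s : Multiset ℝ) : 0 ≤ S2 s := by
  apply Multiset.sum_nonneg
  intro x hx
  rw [Multiset.mem_map] at hx
  obtain ⟨m, _, rfl⟩ := hx
  positivity

theorem S4_le (s : Multiset ℝ) : S4 s ≤ S2 s ^ 2 := by
  induction s using Multiset.induction with
  | empty => simp [S4, S2]
  | cons m s ih =>
    have h3 : S2 (m ::ₘ s) = m ^ 2 + S2 s := by simp [S2]
    have h5 : S4 (m ::ₘ s) = m ^ 4 + S4 s := by simp [S4]
    rw [h3, h5]
    nlinarith [S2_nonneg s, sq_nonneg m, mul_nonneg (sq_nonneg m) (S2_nonneg s)]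

theorem sq_le_S2 {s : Multiset ℝ} {m : ℝ} (hm : m ∈ s) : m ^ 2 ≤ S2 s := by
  obtain ⟨t, rfl⟩ := Multiset.exists_cons_of_mem hm
  have h3 : S2 (m ::ₘ t) = m ^ 2 + S2 t := by simp [S2]
  rw [h3]
  linarith [S2_nonneg t]

theorem S2_le_card {s : Multiset ℝ} {B : ℝ} (h : ∀ m ∈ s, m ^ 2 ≤ B) :
    S2 s ≤ s.card * B := by
  induction s using Multiset.induction with
  | empty => simp [S2]
  | cons m s ih =>
    have h3 : S2 (m ::ₘ s) = m ^ 2 + S2 s := by simp [S2]
    rw [h3, Multiset.card_cons]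
    push_cast
    have h1 := h m (Multiset.mem_cons_self m s)
    have h2 := ih (fun x hx => h x (Multiset.mem_cons_of_mem hx))
    linarith

/-- crude bound for the values -/
theorem abs_eval_Gs_le {s : Multiset ℝ} {B : ℝ} (hB : 0 ≤ B) (h : ∀ m ∈ s, |m| ≤ B) (t : ℝ) :
    |(Gs s).eval t| ≤ (1 + |t| * B) ^ s.card := by
  induction s using Multiset.induction with
  | empty => simp [Gs]
  | cons m s ih =>
    rw [Gs_cons, eval_mul, abs_mul, Multiset.card_cons, pow_succ, mul_comm]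
    have h1 := ih (fun x hx => h x (Multiset.mem_cons_of_mem hx))
    have h2 := h m (Multiset.mem_cons_self m s)
    have h3 : |eval t (1 - C m * X : ℝ[X])| ≤ 1 + |t| * B := by
      simp only [eval_sub, eval_one, eval_mul, eval_C, eval_X]
      calc |1 - m * t| ≤ |(1 : ℝ)| + |m * t| := abs_sub _ _
        _ = 1 + |t| * |m| := by rw [abs_one, abs_mul, mul_comm]
        _ ≤ 1 + |t| * B := by gcongr
    have h4 : 0 ≤ (1 + |t| * B) ^ s.card := by positivity
    exact mul_le_mul h1 h3 (abs_nonneg _) h4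

/-- First estimate: a bound in terms of the sum of the squares of the reciprocal roots. -/
theorem abs_eval_Gs_le_S2 {s : Multiset ℝ} {D : ℕ} (hD : s.card ≤ D) {B : ℝ} (hB : 0 ≤ B)
    (hS : S2 s ≤ B ^ 2) (t : ℝ) :
    |(Gs s).eval t| ≤ (1 + |t| * B) ^ D := by
  have h1 : ∀ m ∈ s, |m| ≤ B := fun m hm => abs_le_of_sq_le_sq ((sq_le_S2 hm).trans hS) hB
  refine (abs_eval_Gs_le hB h1 t).trans ?_
  exact pow_le_pow_right₀ (by nlinarith [abs_nonneg t]) hD

/-- Second estimate: if the sum of the squares of the reciprocal roots is positive, then all but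
one of them are bounded in terms of the second elementary symmetric function of the squares. -/
theorem abs_eval_Gs_le_S4 {s : Multiset ℝ} {D : ℕ} (hD : s.card ≤ D) {A B : ℝ} (hB : 0 ≤ B)
    (hA : 0 ≤ A) (hS : S2 s ≤ A ^ 2) (h0 : 0 < S2 s)
    (hE : D * ((S2 s ^ 2 - S4 s) / 2) ≤ B ^ 2 * S2 s) (t : ℝ) :
    |(Gs s).eval t| ≤ (1 + |t| * A) * (1 + |t| * B) ^ D := by
  have hne : s ≠ 0 := by
    rintro rfl
    simp [S2] at h0
  obtain ⟨m, hm, hmax⟩ : ∃ m ∈ s, ∀ x ∈ s, x ^ 2 ≤ m ^ 2 := by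
    classical
    have hne' : s.toFinset.Nonempty := by
      rw [Multiset.toFinset_nonempty]
      exact hne
    obtain ⟨m, hm, hmax⟩ := s.toFinset.exists_max_image (fun x => x ^ 2) hne'
    exact ⟨m, Multiset.mem_toFinset.1 hm, fun x hx => hmax x (Multiset.mem_toFinset.2 hx)⟩
  have h1 := S2_le_card hmax
  obtain ⟨r, rfl⟩ := Multiset.exists_cons_of_mem hm
  have h2 : S2 (m ::ₘ r) = m ^ 2 + S2 r := by simp [S2]
  have h3 : S4 (m ::ₘ r) = m ^ 4 + S4 r := by simp [S4]
  rw [Multiset.card_cons] at hD h1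
  have hr0 := S2_nonneg r
  have hr4 := S4_le r
  have hDr : ((r.card : ℝ) + 1) ≤ D := by exact_mod_cast hD
  have hm2 : 0 ≤ m ^ 2 := sq_nonneg m
  have h4 : S2 (m ::ₘ r) ≤ D * m ^ 2 := by
    refine h1.trans ?_
    push_cast
    exact mul_le_mul_of_nonneg_right hDr hm2
  have h5 : m ^ 2 * S2 r ≤ (S2 (m ::ₘ r) ^ 2 - S4 (m ::ₘ r)) / 2 := by
    rw [h2, h3]
    nlinarith
  have hD0 : (0 : ℝ) ≤ D := Nat.cast_nonneg D
  have h6 : S2 (m ::ₘ r) * S2 r ≤ B ^ 2 * S2 (m ::ₘ r) := by
    calc S2 (m ::ₘ r) * S2 r ≤ (D * m ^ 2) * S2 r := mul_le_mul_of_nonneg_right h4 hr0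
      _ = D * (m ^ 2 * S2 r) := by ring
      _ ≤ D * ((S2 (m ::ₘ r) ^ 2 - S4 (m ::ₘ r)) / 2) := mul_le_mul_of_nonneg_left h5 hD0
      _ ≤ _ := hE
  have h7 : S2 r ≤ B ^ 2 := by
    have : S2 (m ::ₘ r) * S2 r ≤ S2 (m ::ₘ r) * B ^ 2 := by linarith
    exact le_of_mul_le_mul_left this h0
  have h8 : |(Gs r).eval t| ≤ (1 + |t| * B) ^ D :=
    abs_eval_Gs_le_S2 (by omega) hB h7 t
  have h9 : |m| ≤ A := abs_le_of_sq_le_sq (by rw [h2] at hS; linarith) hA
  rw [Gs_cons, eval_mul, abs_mul]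
  have h10 : |eval t (1 - C m * X : ℝ[X])| ≤ 1 + |t| * A := by
    simp only [eval_sub, eval_one, eval_mul, eval_C, eval_X]
    calc |1 - m * t| ≤ |(1 : ℝ)| + |m * t| := abs_sub _ _
      _ = 1 + |t| * |m| := by rw [abs_one, abs_mul, mul_comm]
      _ ≤ 1 + |t| * A := by gcongr
  exact mul_le_mul h10 h8 (abs_nonneg _) (by positivity)

end Pool.Agent.W5h94.RZ
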