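import Pool.Agent.W5h94.RZ.Basic

set_option autoImplicit false

/-!
# Real zero polynomials: directions of rank zero and one
-/

namespace Pool.Agent.W5h94.RZ

open Polynomial Filter Topology

variable {σ : Type*}

/-- A polynomial is real zero if it has only real zeros on every real line through the origin. -/
def IsRealZero (f : MvPolynomial σ ℝ) : Prop :=
  ∀ (a : σ → ℝ) (c : ℂ), MvPolynomial.aeval (fun i => c * (a i : ℂ)) f = 0 → c.im = 0

/-- the restriction of `f` to the line through the origin in direction `a` -/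
noncomputable def line (f : MvPolynomial σ ℝ) (a : σ → ℝ) : ℝ[X] :=
  MvPolynomial.aeval (fun i => C (a i) * X) f

theorem aeval_line (f : MvPolynomial σ ℝ) (a : σ → ℝ) (c : ℂ) :
    aeval c (line f a) = MvPolynomial.aeval (fun i => c * (a i : ℂ)) f := by
  rw [line, MvPolynomial.comp_aeval_apply]
  congr 2
  funext i
  rw [map_mul, aeval_C, aeval_X, mul_comm]
  rfl

theorem eval_line (f : MvPolynomial σ ℝ) (a : σ → ℝ) (t : ℝ) :
    (line f a).eval t = MvPolynomial.eval (fun i => t * a i) f := by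
  rw [line, ← coe_aeval_eq_eval, MvPolynomial.comp_aeval_apply, MvPolynomial.aeval_eq_eval]
  congr 2
  funext i
  rw [map_mul, aeval_C, aeval_X, mul_comm]
  rfl

theorem IsRealZero.line {f : MvPolynomial σ ℝ} (hf : IsRealZero f) (a : σ → ℝ) :
    RealRooted (line f a) := by
  intro c hc
  rw [aeval_line] at hc
  exact hf a c hc

theorem natDegree_line_le (f : MvPolynomial σ ℝ) (a : σ → ℝ) :
    (line f a).natDegree ≤ f.totalDegree := by
  have := MvPolynomial.aeval_natDegree_le f le_rfl (fun i => (C (a i) * X : ℝ[X]))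
    (n := 1) (fun i => (natDegree_C_mul_le _ _).trans natDegree_X_le)
  simpa [line] using this

/-- the family of the restrictions to the lines in the directions `b + t a` -/
noncomputable def pencil (f : MvPolynomial σ ℝ) (a b : σ → ℝ) : ℝ[X][X] :=
  MvPolynomial.aeval (fun i => C (C (b i) + C (a i) * X) * X) f

theorem pencil_map (f : MvPolynomial σ ℝ) (a b : σ → ℝ) (t : ℝ) :
    (pencil f a b).map (evalRingHom t) = line f (fun i => b i + t * a i) := by
  rw [pencil, line]
  induction f using MvPolynomial.induction_on with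
  | C c =>
    rw [MvPolynomial.aeval_C, MvPolynomial.aeval_C]
    have : (algebraMap ℝ ℝ[X][X] c) = C (C c) := rfl
    rw [this]
    simp
  | add p q hp hq => rw [map_add, map_add, Polynomial.map_add, hp, hq]
  | mul_X p i hp =>
    rw [map_mul, map_mul, Polynomial.map_mul, hp, MvPolynomial.aeval_X, MvPolynomial.aeval_X]
    congr 1
    simp only [Polynomial.map_mul, map_C, coe_evalRingHom, eval_add, eval_C, eval_mul, eval_X,
      map_X]
    rw [mul_comm (a i) t]

theorem pencil_coeff (f : MvPolynomial σ ℝ) (a b : σ → ℝ) (t : ℝ) (k : ℕ) :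
    ((pencil f a b).coeff k).eval t = (line f (fun i => b i + t * a i)).coeff k := by
  rw [← pencil_map, coeff_map, coe_evalRingHom]

/-- a nonnegative polynomial with a zero at the origin has a double zero there -/
theorem X_sq_dvd {ψ : ℝ[X]} (h : ∀ t, 0 ≤ ψ.eval t) (h0 : ψ.eval 0 = 0) : X ^ 2 ∣ ψ := by
  obtain ⟨φ, rfl⟩ : X ∣ ψ := by
    rw [X_dvd_iff, coeff_zero_eq_eval_zero]
    exact h0
  have hφ : φ.eval 0 = 0 := by
    have hc : ContinuousAt (fun t => φ.eval t) 0 := φ.continuous.continuousAt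
    apply le_antisymm
    · by_contra hcon
      push Not at hcon
      have h1 : ∀ᶠ t in 𝓝[<] (0 : ℝ), 0 < φ.eval t :=
        (hc.eventually (lt_mem_nhds hcon)).filter_mono nhdsWithin_le_nhds
      have h2 : ∀ᶠ t in 𝓝[<] (0 : ℝ), t < 0 := self_mem_nhdsWithin
      obtain ⟨t, ht1, ht2⟩ := (h1.and h2).exists
      have h3 := h t
      rw [eval_mul, eval_X] at h3
      nlinarith
    · by_contra hcon
      push Not at hcon
      have h1 : ∀ᶠ t in 𝓝[>] (0 : ℝ), φ.eval t < 0 :=
        (hc.eventually (gt_mem_nhds hcon)).filter_mono nhdsWithin_le_nhds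
      have h2 : ∀ᶠ t in 𝓝[>] (0 : ℝ), 0 < t := self_mem_nhdsWithin
      obtain ⟨t, ht1, ht2⟩ := (h1.and h2).exists
      have h3 := h t
      rw [eval_mul, eval_X] at h3
      nlinarith
  obtain ⟨χ, rfl⟩ : X ∣ φ := by
    rw [X_dvd_iff, coeff_zero_eq_eval_zero]
    exact hφ
  exact ⟨χ, by ring⟩

/-- a nonnegative polynomial with a zero at the origin is `O(t ^ 2)` -/
theorem quad_bound {ψ : ℝ[X]} (h : ∀ t, 0 ≤ ψ.eval t) (h0 : ψ.eval 0 = 0) :
    ∃ K : ℝ, 0 ≤ K ∧ ∀ t, |t| ≤ 1 → ψ.eval t ≤ K * t ^ 2 := by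
  obtain ⟨χ, rfl⟩ := X_sq_dvd h h0
  obtain ⟨K, hK⟩ := (isCompact_Icc (a := (-1 : ℝ)) (b := 1)).exists_bound_of_continuousOn
    (f := fun t => χ.eval t) χ.continuous.continuousOn
  refine ⟨|K|, abs_nonneg K, fun t ht => ?_⟩
  rw [abs_le] at ht
  have h1 := hK t ⟨ht.1, ht.2⟩
  rw [Real.norm_eq_abs] at h1
  have h2 := (le_abs_self _).trans (h1.trans (le_abs_self K))
  rw [eval_mul, eval_pow, eval_X]
  nlinarith [sq_nonneg t]

/-- a polynomial of at most linear growth is affine -/
theorem natDegree_le_one_of_growth {P : ℝ[X]} {M R : ℝ}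
    (h : ∀ t, R ≤ |t| → |P.eval t| ≤ M * (1 + |t|)) : P.natDegree ≤ 1 := by
  by_contra hcon
  push Not at hcon
  have hP : P ≠ 0 := by
    rintro rfl
    simp at hcon
  have hdeg : (X : ℝ[X]).degree < P.degree := by
    rw [degree_X, degree_eq_natDegree hP]
    exact_mod_cast hcon
  have h1 := abs_div_tendsto_atTop_atTop_of_degree_gt P X hdeg X_ne_zero
  have h2 := h1.eventually (eventually_gt_atTop (2 * |M|))
  obtain ⟨t, ht1, ht2, ht3⟩ := (h2.and ((eventually_ge_atTop R).and (eventually_ge_atTop 1))).exists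
  have hpos : (0 : ℝ) < t := by linarith
  have h3 := h t (ht2.trans (le_abs_self t))
  rw [eval_X, abs_div, abs_of_pos hpos, lt_div_iff₀ hpos] at ht1
  rw [abs_of_pos hpos] at h3
  have h4 : M * (1 + t) ≤ |M| * (1 + t) := mul_le_mul_of_nonneg_right (le_abs_self M) (by linarith)
  have h5 : 0 ≤ |M| := abs_nonneg M
  nlinarith

/-- a polynomial which is bounded away from a bounded set is constant -/
theorem eval_eq_of_bounded {P : ℝ[X]} {M R : ℝ} (h : ∀ t, R ≤ |t| → |P.eval t| ≤ M) (t : ℝ) :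
    P.eval t = P.eval 0 := by
  have h1 : IsBoundedUnder (· ≤ ·) atTop fun x => |P.eval x| := by
    refine ⟨M, ?_⟩
    rw [eventually_map]
    filter_upwards [eventually_ge_atTop R] with x hx
    exact h x (hx.trans (le_abs_self x))
  rw [isBoundedUnder_abs_atTop_iff] at h1
  rw [eq_C_of_degree_le_zero h1]
  simp

/-- the values along an affine line as a polynomial -/
noncomputable def aff (f : MvPolynomial σ ℝ) (a b : σ → ℝ) : ℝ[X] :=
  MvPolynomial.aeval (fun i => C (a i) + C (b i) * X) f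

theorem eval_aff (f : MvPolynomial σ ℝ) (a b : σ → ℝ) (t : ℝ) :
    (aff f a b).eval t = MvPolynomial.eval (fun i => a i + t * b i) f := by
  rw [aff, ← coe_aeval_eq_eval, MvPolynomial.comp_aeval_apply, MvPolynomial.aeval_eq_eval]
  congr 2
  funext i
  rw [map_add, map_mul, aeval_C, aeval_C, aeval_X, mul_comm]
  rfl

theorem eval_aff_eq_line (f : MvPolynomial σ ℝ) (a b : σ → ℝ) {t : ℝ} (ht : t ≠ 0) :
    (aff f a b).eval t = (line f (fun i => b i + t⁻¹ * a i)).eval t := by
  rw [eval_aff, eval_line]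
  congr 2
  funext i
  field_simp
  ring

section

variable {f : MvPolynomial σ ℝ} (hf : IsRealZero f) (a b : σ → ℝ)

include hf

/-- the reciprocal roots in the direction `b + t a` -/
theorem exists_recip (h0 : (line f b).coeff 0 = 1) (t : ℝ) :
    ∃ s : Multiset ℝ, line f (fun i => b i + t * a i) = Gs s ∧ s.card ≤ f.totalDegree := by
  have h1 : (line f (fun i => b i + t * a i)).coeff 0 = 1 := by
    rw [coeff_zero_eq_eval_zero, eval_line] at h0 ⊢
    simpa using h0
  obtain ⟨s, h2, h3⟩ := (hf.line (fun i => b i + t * a i)).exists_prod h1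
  exact ⟨s, h2, h3 ▸ natDegree_line_le _ _⟩

/-- A real zero polynomial does not depend on a direction of rank zero. -/
theorem rank_zero (hb : line f b = 1) (t : ℝ) :
    MvPolynomial.eval (fun i => a i + t * b i) f = MvPolynomial.eval a f := by
  set c : ℕ → ℝ[X] := fun k => (pencil f a b).coeff k with hc
  set E1 : ℝ[X] := c 1 ^ 2 - 2 * c 2 with hE1
  have hb0 : (line f b).coeff 0 = 1 := by rw [hb]; simp
  have key : ∀ t, ∃ s : Multiset ℝ, line f (fun i => b i + t * a i) = Gs s ∧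
      s.card ≤ f.totalDegree ∧ S2 s = E1.eval t := by
    intro t
    obtain ⟨s, h1, h2⟩ := exists_recip hf a b hb0 t
    refine ⟨s, h1, h2, ?_⟩
    rw [S2_eq, hE1, eval_sub, eval_pow, eval_mul, hc]
    simp only [pencil_coeff]
    rw [h1]
    simp
  have h1 : ∀ t, 0 ≤ E1.eval t := fun t => by
    obtain ⟨s, _, _, h⟩ := key t
    rw [← h]
    exact S2_nonneg s
  have h2 : E1.eval 0 = 0 := by
    rw [hE1, eval_sub, eval_pow, eval_mul, hc]
    simp only [pencil_coeff, zero_mul, add_zero]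
    rw [show (fun i => b i) = b from rfl, hb]
    simp [coeff_one]
  obtain ⟨K, hK0, hK⟩ := quad_bound h1 h2
  have h3 : ∀ t, 1 ≤ |t| → |(aff f a b).eval t| ≤ (1 + √K) ^ f.totalDegree := by
    intro t ht
    have ht0 : t ≠ 0 := by
      rintro rfl
      simp at ht
      linarith
    have htp : 0 < |t| := by linarith
    rw [eval_aff_eq_line f a b ht0]
    obtain ⟨s, h4, h5, h6⟩ := key t⁻¹
    have h7 : |t⁻¹| ≤ 1 := by
      rw [abs_inv]
      exact inv_le_one_of_one_le₀ ht
    have h8 := hK _ h7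
    rw [← h6] at h8
    have h9 : S2 s ≤ (√K * |t|⁻¹) ^ 2 := by
      rw [mul_pow, Real.sq_sqrt hK0, ← abs_inv, sq_abs]
      exact h8
    rw [h4]
    have h10 := abs_eval_Gs_le_S2 h5 (by positivity) h9 t
    refine h10.trans (le_of_eq ?_)
    congr 2
    field_simp
  have h4 := eval_eq_of_bounded h3 t
  rw [eval_aff, eval_aff] at h4
  simpa using h4

/-- A real zero polynomial is affine along every line whose direction has rank one. -/
theorem rank_one {β : ℝ} (hβ : β ≠ 0) (hb : line f b = 1 + C β * X) (t : ℝ) :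
    MvPolynomial.eval (fun i => a i + t * b i) f = MvPolynomial.eval a f +
      t * (MvPolynomial.eval (fun i => a i + b i) f - MvPolynomial.eval a f) := by
  set c : ℕ → ℝ[X] := fun k => (pencil f a b).coeff k with hc
  set E1 : ℝ[X] := c 1 ^ 2 - 2 * c 2 with hE1
  set E2 : ℝ[X] := c 2 ^ 2 - 2 * c 1 * c 3 + 2 * c 4 with hE2
  set D := f.totalDegree with hD
  have hb0 : (line f b).coeff 0 = 1 := by rw [hb]; simp
  have key : ∀ t, ∃ s : Multiset ℝ, line f (fun i => b i + t * a i) = Gs s ∧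
      s.card ≤ D ∧ S2 s = E1.eval t ∧ (S2 s ^ 2 - S4 s) / 2 = E2.eval t := by
    intro t
    obtain ⟨s, h1, h2⟩ := exists_recip hf a b hb0 t
    refine ⟨s, h1, h2, ?_, ?_⟩
    · rw [S2_eq, hE1, eval_sub, eval_pow, eval_mul, hc]
      simp only [pencil_coeff]
      rw [h1]
      simp
    · rw [S2_eq, S4_eq, hE2, eval_add, eval_sub, eval_pow, eval_mul, eval_mul, eval_mul, hc]
      simp only [pencil_coeff]
      rw [h1]
      simp only [eval_ofNat]
      ring
  have h1 : ∀ t, 0 ≤ E2.eval t := fun t => by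
    obtain ⟨s, _, _, _, h⟩ := key t
    rw [← h]
    linarith [S4_le s]
  have e1 : (line f b).coeff 1 = β := by rw [hb]; simp [coeff_one]
  have e2 : (line f b).coeff 2 = 0 := by rw [hb]; simp [coeff_one]
  have e3 : (line f b).coeff 3 = 0 := by rw [hb]; simp [coeff_one]
  have e4 : (line f b).coeff 4 = 0 := by rw [hb]; simp [coeff_one]
  have h2 : E2.eval 0 = 0 := by
    rw [hE2, eval_add, eval_sub, eval_pow, eval_mul, eval_mul, eval_mul, hc]
    simp only [pencil_coeff, zero_mul, add_zero]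
    rw [show (fun i => b i) = b from rfl, e2, e3, e4]
    ring
  have h3 : E1.eval 0 = β ^ 2 := by
    rw [hE1, eval_sub, eval_pow, eval_mul, hc]
    simp only [pencil_coeff, zero_mul, add_zero]
    rw [show (fun i => b i) = b from rfl, e1, e2]
    ring
  obtain ⟨K, hK0, hK⟩ := quad_bound h1 h2
  have hβ2 : 0 < β ^ 2 := by positivity
  have hβa : 0 < |β| := abs_pos.2 hβ
  obtain ⟨δ, hδ, hδ1, hδE⟩ : ∃ δ : ℝ, 0 < δ ∧ δ ≤ 1 ∧ ∀ t, |t| ≤ δ →
      β ^ 2 / 2 ≤ E1.eval t ∧ E1.eval t ≤ 4 * β ^ 2 := by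
    have hcont : ContinuousAt (fun t => E1.eval t) 0 := E1.continuous.continuousAt
    have h5 : ∀ᶠ t in 𝓝 (0 : ℝ), β ^ 2 / 2 < E1.eval t :=
      hcont.eventually (lt_mem_nhds (by change _ < E1.eval 0; rw [h3]; linarith))
    have h6 : ∀ᶠ t in 𝓝 (0 : ℝ), E1.eval t < 4 * β ^ 2 :=
      hcont.eventually (gt_mem_nhds (by change E1.eval 0 < _; rw [h3]; linarith))
    obtain ⟨ε, hε, hεE⟩ := Metric.eventually_nhds_iff.1 (h5.and h6)
    refine ⟨min (ε / 2) 1, by positivity, min_le_right _ _, fun t ht => ?_⟩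
    have h7 : dist t 0 < ε := by
      rw [Real.dist_eq, sub_zero]
      have := ht.trans (min_le_left _ _)
      linarith
    have h8 := hεE h7
    exact ⟨h8.1.le, h8.2.le⟩
  set L : ℝ := √(2 * D * K) / |β| with hL
  have hL0 : 0 ≤ L := by positivity
  have hL2 : L ^ 2 * β ^ 2 = 2 * D * K := by
    rw [hL, div_pow, Real.sq_sqrt (by positivity), sq_abs]
    field_simp
  have h5 : ∀ t, δ⁻¹ ≤ |t| → |(aff f a b).eval t| ≤
      (1 + 2 * |β|) * (1 + L) ^ D * (1 + |t|) := by
    intro t ht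
    have htp : 0 < |t| := lt_of_lt_of_le (by positivity) ht
    have ht0 : t ≠ 0 := abs_pos.1 htp
    rw [eval_aff_eq_line f a b ht0]
    obtain ⟨s, h4, h5, h6, h7⟩ := key t⁻¹
    have h8 : |t⁻¹| ≤ δ := by
      rw [abs_inv]
      exact inv_le_of_inv_le₀ hδ ht
    have h9 := hK _ (h8.trans hδ1)
    obtain ⟨h10, h11⟩ := hδE _ h8
    rw [← h6] at h10 h11
    rw [← h7] at h9
    have hT : 0 < |t|⁻¹ := by positivity
    have h12 : S2 s ≤ (2 * |β|) ^ 2 := by
      rw [mul_pow, sq_abs]
      linarith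
    have h13 : (D : ℝ) * ((S2 s ^ 2 - S4 s) / 2) ≤ (L * |t|⁻¹) ^ 2 * S2 s := by
      have h14 : (t⁻¹) ^ 2 = (|t|⁻¹) ^ 2 := by rw [← abs_inv, sq_abs]
      rw [h14] at h9
      have hD0 : (0 : ℝ) ≤ D := Nat.cast_nonneg D
      calc (D : ℝ) * ((S2 s ^ 2 - S4 s) / 2) ≤ D * (K * (|t|⁻¹) ^ 2) :=
            mul_le_mul_of_nonneg_left h9 hD0
        _ = (L ^ 2 * β ^ 2 / 2) * (|t|⁻¹) ^ 2 := by rw [hL2]; ring
        _ = (L * |t|⁻¹) ^ 2 * (β ^ 2 / 2) := by ring
        _ ≤ (L * |t|⁻¹) ^ 2 * S2 s := mul_le_mul_of_nonneg_left h10 (by positivity)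
    have h15 := abs_eval_Gs_le_S4 h5 (B := L * |t|⁻¹) (A := 2 * |β|) (by positivity)
      (by positivity) h12 (by linarith) h13 t
    rw [h4]
    refine h15.trans ?_
    have h16 : |t| * (L * |t|⁻¹) = L := by field_simp
    rw [h16]
    have h17 : 1 + |t| * (2 * |β|) ≤ (1 + 2 * |β|) * (1 + |t|) := by nlinarith
    calc (1 + |t| * (2 * |β|)) * (1 + L) ^ D ≤ ((1 + 2 * |β|) * (1 + |t|)) * (1 + L) ^ D :=
          mul_le_mul_of_nonneg_right h17 (by positivity)
      _ = _ := by ring
  have h6 := natDegree_le_one_of_growth h5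
  have h7 : aff f a b = C ((aff f a b).coeff 1) * X + C ((aff f a b).coeff 0) :=
    eq_X_add_C_of_natDegree_le_one h6
  have h8 := eval_aff f a b t
  have h9 := eval_aff f a b 0
  have h10 := eval_aff f a b 1
  rw [h7] at h8 h9 h10
  simp only [eval_add, eval_mul, eval_C, eval_X, zero_mul, add_zero, mul_zero, zero_add, one_mul,
    mul_one] at h8 h9 h10
  rw [← h8, ← h9, ← h10]
  ring

end

end Pool.Agent.W5h94.RZ
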