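import Pool.Agent.W5h94.RZ.Lines

set_option autoImplicit false

/-!
# Two real zero polynomials with two shared variables without a real zero amalgam
-/

namespace Pool.Agent.W5h94.RZ

open Polynomial Filter Topology

theorem norm_prod_le (s : Multiset ℝ) (α β β' : ℝ) (h : |β'| ≤ |β|) :
    ‖(s.map fun ρ : ℝ => ((α + β' * Complex.I) - (ρ : ℂ) : ℂ)).prod‖ ≤
      ‖(s.map fun ρ : ℝ => ((α + β * Complex.I) - (ρ : ℂ) : ℂ)).prod‖ := by
  induction s using Multiset.induction with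
  | empty => simp
  | cons ρ s ih =>
    rw [Multiset.map_cons, Multiset.prod_cons, Multiset.map_cons, Multiset.prod_cons, norm_mul,
      norm_mul]
    apply mul_le_mul _ ih (norm_nonneg _) (norm_nonneg _)
    have e : ∀ γ : ℝ, ((α + γ * Complex.I) - (ρ : ℂ) : ℂ) = ((α - ρ : ℝ) : ℂ) + γ * Complex.I := by
      intro γ
      push_cast
      ring
    rw [e, e, Complex.norm_add_mul_I, Complex.norm_add_mul_I]
    apply Real.sqrt_le_sqrt
    have := sq_le_sq.2 h
    linarith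

theorem RealRooted.norm_le {g : ℝ[X]} (hg : RealRooted g) (α β β' : ℝ) (h : |β'| ≤ |β|) :
    ‖aeval (α + β' * Complex.I : ℂ) g‖ ≤ ‖aeval (α + β * Complex.I : ℂ) g‖ := by
  have e : ∀ x : ℂ, aeval x g = (g.leadingCoeff : ℂ) *
      (g.roots.map fun ρ : ℝ => (x - (ρ : ℂ) : ℂ)).prod := by
    intro x
    conv_lhs => rw [hg.splits.eq_prod_roots]
    rw [map_mul, aeval_C, map_multiset_prod (aeval x : ℝ[X] →ₐ[ℝ] ℂ), Multiset.map_map]
    congr 2
    apply Multiset.map_congr rfl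
    intro ρ _
    simp
  rw [e, e, norm_mul, norm_mul]
  exact mul_le_mul_of_nonneg_left (norm_prod_le _ _ _ _ h) (norm_nonneg _)

/-- If all members of a pencil `A + μ B` are real rooted then `B` is real rooted. -/
theorem RealRooted.of_pencil {A B : ℝ[X]} (h : ∀ μ : ℝ, RealRooted (A + C μ * B)) (hB : B ≠ 0) :
    RealRooted B := by
  intro c hc
  by_contra him
  have h1 : ∀ β : ℝ, |β| ≤ |c.im| → aeval (c.re + β * Complex.I : ℂ) B = 0 := by
    intro β hβ
    have h2 : ∀ μ : ℝ, |μ| * ‖aeval (c.re + β * Complex.I : ℂ) B‖ ≤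
        ‖aeval c A‖ + ‖aeval (c.re + β * Complex.I : ℂ) A‖ := by
      intro μ
      have h3 := (h μ).norm_le c.re c.im β hβ
      rw [Complex.re_add_im] at h3
      simp only [map_add, map_mul, aeval_C, hc, mul_zero, add_zero] at h3
      have h4 : ‖(algebraMap ℝ ℂ) μ * aeval (c.re + β * Complex.I : ℂ) B‖ =
          |μ| * ‖aeval (c.re + β * Complex.I : ℂ) B‖ := by
        rw [norm_mul]
        simp
      rw [← h4]
      have h5 : ‖(algebraMap ℝ ℂ) μ * aeval (c.re + β * Complex.I : ℂ) B‖ ≤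
          ‖aeval (c.re + β * Complex.I : ℂ) A +
            (algebraMap ℝ ℂ) μ * aeval (c.re + β * Complex.I : ℂ) B‖ +
          ‖aeval (c.re + β * Complex.I : ℂ) A‖ := by
        have := norm_sub_le (aeval (c.re + β * Complex.I : ℂ) A +
            (algebraMap ℝ ℂ) μ * aeval (c.re + β * Complex.I : ℂ) B)
            (aeval (c.re + β * Complex.I : ℂ) A)
        rwa [add_sub_cancel_left] at this
      linarith
    by_contra hne
    have hpos : 0 < ‖aeval (c.re + β * Complex.I : ℂ) B‖ := norm_pos_iff.2 hne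
    set N := ‖aeval (c.re + β * Complex.I : ℂ) B‖
    set T := ‖aeval c A‖ + ‖aeval (c.re + β * Complex.I : ℂ) A‖
    have h3 := h2 ((|T| + 1) / N)
    rw [abs_div, abs_of_pos hpos, div_mul_cancel₀ _ hpos.ne', abs_of_pos (by positivity)] at h3
    linarith [le_abs_self T]
  apply hB
  have hinf : Set.Infinite {x : ℂ | (B.map (algebraMap ℝ ℂ)).IsRoot x} := by
    have h2 : (Set.Icc 0 |c.im|).Infinite := Set.Icc_infinite (abs_pos.2 him)
    have h3 : Set.InjOn (fun β : ℝ => (c.re + β * Complex.I : ℂ)) (Set.Icc 0 |c.im|) := by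
      intro a _ b _ hab
      have := congrArg Complex.im hab
      simpa using this
    refine (h2.image h3).mono ?_
    rintro _ ⟨β, hβ, rfl⟩
    change (B.map (algebraMap ℝ ℂ)).IsRoot _
    rw [IsRoot.def, eval_map_algebraMap]
    exact h1 β (by rw [abs_of_nonneg hβ.1]; exact hβ.2)
  have h4 := eq_zero_of_infinite_isRoot _ hinf
  exact (Polynomial.map_eq_zero (algebraMap ℝ ℂ)).1 h4

theorem cubic_coeff (u v w : ℝ) :
    (1 + C u * X + C v * X ^ 2 + C w * X ^ 3 : ℝ[X]).coeff 0 = 1 ∧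
    (1 + C u * X + C v * X ^ 2 + C w * X ^ 3 : ℝ[X]).coeff 1 = u ∧
    (1 + C u * X + C v * X ^ 2 + C w * X ^ 3 : ℝ[X]).coeff 2 = v ∧
    (1 + C u * X + C v * X ^ 2 + C w * X ^ 3 : ℝ[X]).coeff 3 = w := by
  refine ⟨?_, ?_, ?_, ?_⟩ <;> simp [coeff_one, coeff_X_pow]

/-- Real rooted cubics. -/
theorem RealRooted.cubic {a b c : ℝ}
    (h : RealRooted (1 + C a * X + C b * X ^ 2 + C c * X ^ 3)) :
    ∃ x y z : ℝ, a = -(x + y + z) ∧ b = x * y + x * z + y * z ∧ c = -(x * y * z) := by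
  set g : ℝ[X] := 1 + C a * X + C b * X ^ 2 + C c * X ^ 3 with hg
  obtain ⟨h0, h1, h2, h3⟩ := cubic_coeff a b c
  rw [← hg] at h0 h1 h2 h3
  have hdeg : g.natDegree ≤ 3 := by
    rw [hg]
    compute_degree
  obtain ⟨s, hs, hcard⟩ := h.exists_prod h0
  have hcard3 : s.card ≤ 3 := hcard ▸ hdeg
  have h4 : g = Gs (s + Multiset.replicate (3 - s.card) 0) := by
    rw [hs, Gs, Multiset.map_add, Multiset.prod_add]
    simp
  have h5 : (s + Multiset.replicate (3 - s.card) 0).card = 3 := by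
    rw [Multiset.card_add, Multiset.card_replicate]
    omega
  obtain ⟨x, y, z, hxyz⟩ := Multiset.card_eq_three.1 h5
  rw [hxyz] at h4
  have h6 : Gs {x, y, z} = 1 + C (-(x + y + z)) * X + C (x * y + x * z + y * z) * X ^ 2 +
      C (-(x * y * z)) * X ^ 3 := by
    simp only [Gs, Multiset.insert_eq_cons, Multiset.map_cons, Multiset.map_singleton,
      Multiset.prod_cons, Multiset.prod_singleton, C_neg, C_add, C_mul]
    ring
  rw [h6] at h4
  obtain ⟨-, k1, k2, k3⟩ := cubic_coeff (-(x + y + z)) (x * y + x * z + y * z) (-(x * y * z))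
  rw [← h4] at k1 k2 k3
  exact ⟨x, y, z, h1.symm.trans k1, h2.symm.trans k2, h3.symm.trans k3⟩

/-- the discriminant inequality -/
theorem discr_nonneg {a b c : ℝ} (h : ∃ x y z : ℝ, a = -(x + y + z) ∧ b = x * y + x * z + y * z ∧
    c = -(x * y * z)) :
    0 ≤ a ^ 2 * b ^ 2 - 4 * b ^ 3 - 4 * a ^ 3 * c + 18 * a * b * c - 27 * c ^ 2 := by
  obtain ⟨x, y, z, rfl, rfl, rfl⟩ := h
  have : (-(x + y + z)) ^ 2 * (x * y + x * z + y * z) ^ 2 - 4 * (x * y + x * z + y * z) ^ 3 -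
      4 * (-(x + y + z)) ^ 3 * (-(x * y * z)) +
      18 * (-(x + y + z)) * (x * y + x * z + y * z) * (-(x * y * z)) -
      27 * (-(x * y * z)) ^ 2 = ((x - y) * (x - z) * (y - z)) ^ 2 := by ring
  rw [this]
  positivity

theorem no_amalgam (r : MvPolynomial (Fin 4) ℝ) (hr : IsRealZero r)
    (hp : ∀ x₁ x₂ y : ℝ, MvPolynomial.eval ![x₁, x₂, y, 0] r =
      1 - x₁ ^ 2 - x₂ ^ 2 + y * (1 - x₁))
    (hq : ∀ x₁ x₂ z : ℝ, MvPolynomial.eval ![x₁, x₂, 0, z] r =
      1 - x₁ ^ 2 - x₂ ^ 2 + z * (1 - x₂ ^ 2)) : False := by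
  -- `r` is affine in `y` and in `z`
  have hy : ∀ x₁ x₂ y z : ℝ, MvPolynomial.eval ![x₁, x₂, y, z] r =
      MvPolynomial.eval ![x₁, x₂, 0, z] r + y * (MvPolynomial.eval ![x₁, x₂, 1, z] r -
        MvPolynomial.eval ![x₁, x₂, 0, z] r) := by
    intro x₁ x₂ y z
    have hb : line r ![0, 0, 1, 0] = 1 + C 1 * X := by
      apply Polynomial.funext
      intro t
      rw [eval_line]
      have e : (fun i => t * (![0, 0, 1, 0] : Fin 4 → ℝ) i) = ![0, 0, t, 0] := by
        funext i; fin_cases i <;> simp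
      rw [e, hp]
      simp
    have h1 := rank_one hr ![x₁, x₂, 0, z] ![0, 0, 1, 0] one_ne_zero hb y
    have e1 : (fun i => (![x₁, x₂, 0, z] : Fin 4 → ℝ) i + y * (![0, 0, 1, 0] : Fin 4 → ℝ) i) =
        ![x₁, x₂, y, z] := by
      funext i; fin_cases i <;> simp
    have e2 : (fun i => (![x₁, x₂, 0, z] : Fin 4 → ℝ) i + (![0, 0, 1, 0] : Fin 4 → ℝ) i) =
        ![x₁, x₂, 1, z] := by
      funext i; fin_cases i <;> simp
    rwa [e1, e2] at h1
  have hz : ∀ x₁ x₂ y z : ℝ, MvPolynomial.eval ![x₁, x₂, y, z] r =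
      MvPolynomial.eval ![x₁, x₂, y, 0] r + z * (MvPolynomial.eval ![x₁, x₂, y, 1] r -
        MvPolynomial.eval ![x₁, x₂, y, 0] r) := by
    intro x₁ x₂ y z
    have hb : line r ![0, 0, 0, 1] = 1 + C 1 * X := by
      apply Polynomial.funext
      intro t
      rw [eval_line]
      have e : (fun i => t * (![0, 0, 0, 1] : Fin 4 → ℝ) i) = ![0, 0, 0, t] := by
        funext i; fin_cases i <;> simp
      rw [e, hq]
      simp
    have h1 := rank_one hr ![x₁, x₂, y, 0] ![0, 0, 0, 1] one_ne_zero hb z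
    have e1 : (fun i => (![x₁, x₂, y, 0] : Fin 4 → ℝ) i + z * (![0, 0, 0, 1] : Fin 4 → ℝ) i) =
        ![x₁, x₂, y, z] := by
      funext i; fin_cases i <;> simp
    have e2 : (fun i => (![x₁, x₂, y, 0] : Fin 4 → ℝ) i + (![0, 0, 0, 1] : Fin 4 → ℝ) i) =
        ![x₁, x₂, y, 1] := by
      funext i; fin_cases i <;> simp
    rwa [e1, e2] at h1
  -- the coefficient of `y`
  set B0 : MvPolynomial (Fin 4) ℝ := MvPolynomial.aeval
    (![MvPolynomial.X 0, MvPolynomial.X 1, 0, MvPolynomial.X 3] :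
      Fin 4 → MvPolynomial (Fin 4) ℝ) r with hB0
  set B1 : MvPolynomial (Fin 4) ℝ := MvPolynomial.aeval
    (![MvPolynomial.X 0, MvPolynomial.X 1, 1, MvPolynomial.X 3] :
      Fin 4 → MvPolynomial (Fin 4) ℝ) r with hB1
  set A : MvPolynomial (Fin 4) ℝ := B1 - B0 with hA
  have eB0 : ∀ v : Fin 4 → ℝ, MvPolynomial.eval v B0 =
      MvPolynomial.eval ![v 0, v 1, 0, v 3] r := by
    intro v
    rw [hB0, ← MvPolynomial.aeval_eq_eval, MvPolynomial.comp_aeval_apply,
      MvPolynomial.aeval_eq_eval]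
    congr 2
    funext i; fin_cases i <;> simp
  have eB1 : ∀ v : Fin 4 → ℝ, MvPolynomial.eval v B1 =
      MvPolynomial.eval ![v 0, v 1, 1, v 3] r := by
    intro v
    rw [hB1, ← MvPolynomial.aeval_eq_eval, MvPolynomial.comp_aeval_apply,
      MvPolynomial.aeval_eq_eval]
    congr 2
    funext i; fin_cases i <;> simp
  have hid : r = B0 + MvPolynomial.X 2 * A := by
    apply MvPolynomial.funext
    intro v
    have e : v = ![v 0, v 1, v 2, v 3] := by
      funext i; fin_cases i <;> rfl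
    have h1 := hy (v 0) (v 1) (v 2) (v 3)
    rw [← e] at h1
    rw [h1, map_add, map_mul, MvPolynomial.eval_X, hA, map_sub, eB0, eB1]
  have eA : ∀ v : Fin 4 → ℝ, MvPolynomial.eval v A =
      MvPolynomial.eval ![v 0, v 1, 1, v 3] r - MvPolynomial.eval ![v 0, v 1, 0, v 3] r := by
    intro v
    rw [hA, map_sub, eB0, eB1]
  -- `A` is real zero
  have hAr : IsRealZero A := by
    intro a c hc
    have hB : RealRooted (X * line A a) := by
      apply RealRooted.of_pencil (A := line B0 a)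
      · intro μ
        have e : line B0 a + C μ * (X * line A a) = line r ![a 0, a 1, μ, a 3] := by
          apply Polynomial.funext
          intro t
          rw [eval_add, eval_mul, eval_C, eval_mul, eval_X, eval_line, eval_line, eval_line, eB0,
            eA]
          have e1 : (fun i => t * (![a 0, a 1, μ, a 3] : Fin 4 → ℝ) i) =
              ![t * a 0, t * a 1, t * μ, t * a 3] := by
            funext i; fin_cases i <;> simp
          rw [e1, hy (t * a 0) (t * a 1) (t * μ) (t * a 3)]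
          ring
        rw [e]
        exact hr.line _
      · intro h0
        have h1 := congrArg (fun g : ℝ[X] => g.coeff 1) h0
        simp only [coeff_X_mul, coeff_zero] at h1
        rw [coeff_zero_eq_eval_zero, eval_line, eA] at h1
        have e1 : (![(fun i => (0 : ℝ) * a i) 0, (fun i => (0 : ℝ) * a i) 1, 1,
            (fun i => (0 : ℝ) * a i) 3] : Fin 4 → ℝ) = ![0, 0, 1, 0] := by
          funext i; fin_cases i <;> simp
        have e2 : (![(fun i => (0 : ℝ) * a i) 0, (fun i => (0 : ℝ) * a i) 1, 0,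
            (fun i => (0 : ℝ) * a i) 3] : Fin 4 → ℝ) = ![0, 0, 0, 0] := by
          funext i; fin_cases i <;> simp
        rw [e1, e2, hp, hp] at h1
        norm_num at h1
    exact hB c (by rw [map_mul, aeval_line, hc, mul_zero])
  have hG2 : ∀ x₁ x₂ z : ℝ, MvPolynomial.eval ![x₁, x₂, 0, z] A =
      MvPolynomial.eval ![x₁, 0, 0, z] A := by
    intro x₁ x₂ z
    have hb : line A ![0, 1, 0, 0] = 1 := by
      apply Polynomial.funext
      intro t
      rw [eval_line, eA]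
      have e1 : (![(fun i => t * (![0, 1, 0, 0] : Fin 4 → ℝ) i) 0,
          (fun i => t * (![0, 1, 0, 0] : Fin 4 → ℝ) i) 1, 1,
          (fun i => t * (![0, 1, 0, 0] : Fin 4 → ℝ) i) 3] : Fin 4 → ℝ) = ![0, t, 1, 0] := by
        funext i; fin_cases i <;> simp
      have e2 : (![(fun i => t * (![0, 1, 0, 0] : Fin 4 → ℝ) i) 0,
          (fun i => t * (![0, 1, 0, 0] : Fin 4 → ℝ) i) 1, 0,
          (fun i => t * (![0, 1, 0, 0] : Fin 4 → ℝ) i) 3] : Fin 4 → ℝ) = ![0, t, 0, 0] := by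
        funext i; fin_cases i <;> simp
      rw [e1, e2, hp, hp]
      simp
    have h1 := rank_zero hAr ![x₁, 0, 0, z] ![0, 1, 0, 0] hb x₂
    have e1 : (fun i => (![x₁, 0, 0, z] : Fin 4 → ℝ) i + x₂ * (![0, 1, 0, 0] : Fin 4 → ℝ) i) =
        ![x₁, x₂, 0, z] := by
      funext i; fin_cases i <;> simp
    rwa [e1] at h1
  have hG1 : ∀ x₁ z : ℝ, MvPolynomial.eval ![x₁, 0, 0, z] A =
      MvPolynomial.eval ![0, 0, 0, z] A - x₁ * (MvPolynomial.eval ![-1, 0, 0, z] A -
        MvPolynomial.eval ![0, 0, 0, z] A) := by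
    intro x₁ z
    have hb : line A ![-1, 0, 0, 0] = 1 + C 1 * X := by
      apply Polynomial.funext
      intro t
      rw [eval_line, eA]
      have e1 : (![(fun i => t * (![-1, 0, 0, 0] : Fin 4 → ℝ) i) 0,
          (fun i => t * (![-1, 0, 0, 0] : Fin 4 → ℝ) i) 1, 1,
          (fun i => t * (![-1, 0, 0, 0] : Fin 4 → ℝ) i) 3] : Fin 4 → ℝ) = ![-t, 0, 1, 0] := by
        funext i; fin_cases i <;> simp
      have e2 : (![(fun i => t * (![-1, 0, 0, 0] : Fin 4 → ℝ) i) 0,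
          (fun i => t * (![-1, 0, 0, 0] : Fin 4 → ℝ) i) 1, 0,
          (fun i => t * (![-1, 0, 0, 0] : Fin 4 → ℝ) i) 3] : Fin 4 → ℝ) = ![-t, 0, 0, 0] := by
        funext i; fin_cases i <;> simp
      rw [e1, e2, hp, hp]
      simp
    have h1 := rank_one hAr ![0, 0, 0, z] ![-1, 0, 0, 0] one_ne_zero hb (-x₁)
    have e1 : (fun i => (![0, 0, 0, z] : Fin 4 → ℝ) i + -x₁ * (![-1, 0, 0, 0] : Fin 4 → ℝ) i) =
        ![x₁, 0, 0, z] := by
      funext i; fin_cases i <;> simp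
    have e2 : (fun i => (![0, 0, 0, z] : Fin 4 → ℝ) i + (![-1, 0, 0, 0] : Fin 4 → ℝ) i) =
        ![-1, 0, 0, z] := by
      funext i; fin_cases i <;> simp
    rw [e1, e2] at h1
    rw [h1]
    ring
  -- the shape of `r`
  obtain ⟨h0, h1, hF⟩ : ∃ h0 h1 : ℝ, ∀ x₁ x₂ y z : ℝ, MvPolynomial.eval ![x₁, x₂, y, z] r =
      1 - x₁ ^ 2 - x₂ ^ 2 + z * (1 - x₂ ^ 2) + y * (1 - x₁ + z * (h0 + h1 * x₁)) := by
    refine ⟨MvPolynomial.eval ![0, 0, 0, 1] A - 1,
      1 - (MvPolynomial.eval ![-1, 0, 0, 1] A - MvPolynomial.eval ![0, 0, 0, 1] A),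
      fun x₁ x₂ y z => ?_⟩
    have eA' : ∀ x₁ x₂ z : ℝ, MvPolynomial.eval ![x₁, x₂, 1, z] r -
        MvPolynomial.eval ![x₁, x₂, 0, z] r = MvPolynomial.eval ![x₁, x₂, 0, z] A := by
      intro x₁ x₂ z
      rw [eA]
      rfl
    have h2 := hz x₁ x₂ 1 z
    have h3 := hz x₁ x₂ 0 z
    have h4 := eA' x₁ x₂ z
    have h5 := eA' x₁ x₂ 1
    have h6 := eA' x₁ x₂ 0
    have h7 : MvPolynomial.eval ![x₁, x₂, 0, z] A = MvPolynomial.eval ![x₁, x₂, 0, 0] A +
        z * (MvPolynomial.eval ![x₁, x₂, 0, 1] A - MvPolynomial.eval ![x₁, x₂, 0, 0] A) := by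
      rw [← h4, ← h5, ← h6, h2, h3]
      ring
    have h8 : MvPolynomial.eval ![x₁, x₂, 0, 0] A = 1 - x₁ := by
      rw [← h6, hp, hp]
      ring
    have h9 := hG2 x₁ x₂ 1
    have h10 := hG1 x₁ 1
    rw [hy, eA', hq, h7, h8, h9, h10]
    ring
  have hline : ∀ x₁ x₂ y z : ℝ, line r ![x₁, x₂, y, z] =
      1 + C (y + z) * X + C (-x₁ ^ 2 - x₂ ^ 2 - y * x₁ + h0 * y * z) * X ^ 2 +
        C (-(z * x₂ ^ 2) + h1 * x₁ * y * z) * X ^ 3 := by
    intro x₁ x₂ y z
    apply Polynomial.funext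
    intro t
    rw [eval_line]
    have e1 : (fun i => t * (![x₁, x₂, y, z] : Fin 4 → ℝ) i) =
        ![t * x₁, t * x₂, t * y, t * z] := by
      funext i; fin_cases i <;> simp
    rw [e1, hF]
    simp only [eval_add, eval_mul, eval_C, eval_X, eval_pow, eval_one]
    ring
  have hcub : ∀ x₁ x₂ y z : ℝ, ∃ u v w : ℝ, y + z = -(u + v + w) ∧
      -x₁ ^ 2 - x₂ ^ 2 - y * x₁ + h0 * y * z = u * v + u * w + v * w ∧
      -(z * x₂ ^ 2) + h1 * x₁ * y * z = -(u * v * w) := by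
    intro x₁ x₂ y z
    have h2 := hr.line ![x₁, x₂, y, z]
    rw [hline] at h2
    exact h2.cubic
  -- the node `(0, 1, 0, -1)`
  have hh0 : h0 = 1 := by
    have h2 : ∀ t, 0 ≤ (C (32 * (h0 - 1)) * X + C (13 * h0 ^ 2 - 22 * h0 + 13) * X ^ 2 +
        C (-2 * h0 ^ 2 + 2 * h0 + 4 * h0 ^ 3 - 4) * X ^ 3 + C (h0 ^ 2) * X ^ 4 : ℝ[X]).eval t := by
      intro t
      have h3 := discr_nonneg (hcub 0 1 t (-1))
      simp only [eval_add, eval_mul, eval_C, eval_X, eval_pow]
      refine h3.trans (le_of_eq ?_)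
      ring
    obtain ⟨χ, hχ⟩ := X_sq_dvd h2 (by simp)
    have h3 := congrArg (fun g : ℝ[X] => g.coeff 1) hχ
    simp only [coeff_add, coeff_C_mul, coeff_X_one, mul_one, coeff_X_pow] at h3
    have h4 : (X ^ 2 * χ).coeff 1 = 0 := by
      rw [pow_two, mul_assoc, coeff_X_mul, mul_coeff_zero]
      simp
    rw [h4] at h3
    norm_num at h3
    linarith
  subst hh0
  have hh1 : h1 = -1 / 2 := by
    obtain ⟨u, v, w, e1, e2, e3⟩ := hcub 1 0 (-2) (-1)
    have h2 : (u - 1) ^ 2 + (v - 1) ^ 2 + (w - 1) ^ 2 = 0 := by nlinarith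
    have hu : u = 1 := by nlinarith [sq_nonneg (u - 1), sq_nonneg (v - 1), sq_nonneg (w - 1)]
    have hv : v = 1 := by nlinarith [sq_nonneg (u - 1), sq_nonneg (v - 1), sq_nonneg (w - 1)]
    have hw : w = 1 := by nlinarith [sq_nonneg (u - 1), sq_nonneg (v - 1), sq_nonneg (w - 1)]
    subst hu hv hw
    linarith
  subst hh1
  obtain ⟨u, v, w, e1, e2, e3⟩ := hcub 1 0 (-1) (-1)
  have h2 : 3 * ((u + v + w) * (u * v * w)) ≤ (u * v + u * w + v * w) ^ 2 := by
    nlinarith [sq_nonneg (u * v - u * w), sq_nonneg (u * v - v * w), sq_nonneg (u * w - v * w)]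
  have e4 : u + v + w = 2 := by linarith
  have e5 : u * v * w = 1 / 2 := by linarith
  rw [e4, e5, ← e2] at h2
  norm_num at h2

end Pool.Agent.W5h94.RZ
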